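import Pool.Agent.helper37.NF.Spec

set_option autoImplicit false

namespace Pool.Agent.helper37.NF

open Finset Pool.Agent.NK

theorem LCX_fac {a x y : ℝ} (ha : 0 < a) (hx : 0 ≤ x) (hxy : x ≤ y) :
    (4 * x + a) / (3 * x + a) ≤ (4 * y + a) / (3 * y + a) := by
  have hy : 0 ≤ y := hx.trans hxy
  rw [div_le_div_iff₀ (by linarith) (by linarith)]
  nlinarith

theorem LCX_rho (x : ℝ) (hx : 0 ≤ x) : rho x =
    4 * ((4 * x + 1) / (3 * x + 1)) * ((4 * x + 2) / (3 * x + 2)) * ((4 * x + 3) / (3 * x + 3)) := by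
  unfold rho
  have h1 : (3 * x + 1) ≠ 0 := by positivity
  have h2 : (3 * x + 2) ≠ 0 := by positivity
  have h3 : (3 * x + 3) ≠ 0 := by positivity
  field_simp

theorem LCX_mono {x y : ℝ} (hx : 0 ≤ x) (hxy : x ≤ y) : rho x ≤ rho y := by
  have hy : 0 ≤ y := hx.trans hxy
  rw [LCX_rho x hx, LCX_rho y hy]
  have h1 := LCX_fac (a := 1) (by norm_num) hx hxy
  have h2 := LCX_fac (a := 2) (by norm_num) hx hxy
  have h3 := LCX_fac (a := 3) (by norm_num) hx hxy
  have e1 : 0 ≤ (4 * x + 1) / (3 * x + 1) := by positivity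
  have e2 : 0 ≤ (4 * x + 2) / (3 * x + 2) := by positivity
  have e3 : 0 ≤ (4 * x + 3) / (3 * x + 3) := by positivity
  have f1 : 0 ≤ (4 * y + 1) / (3 * y + 1) := by positivity
  have f2 : 0 ≤ (4 * y + 2) / (3 * y + 2) := by positivity
  exact mul_le_mul (mul_le_mul (mul_le_mul_of_nonneg_left h1 (by norm_num)) h2 e2
    (by positivity)) h3 e3 (by positivity)

theorem LCX (h : REC_stmt) : LCX_stmt := by
  have step : ∀ i j : ℕ, i ≤ j → cc (i + 1) * cc j ≤ cc i * cc (j + 1) := by
    intro i j hij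
    have h1 : ((cc (i + 1) * cc j : ℕ) : ℝ) ≤ ((cc i * cc (j + 1) : ℕ) : ℝ) := by
      push_cast
      rw [h i, h j]
      have hm : rho (i : ℝ) ≤ rho (j : ℝ) :=
        LCX_mono (Nat.cast_nonneg i) (by exact_mod_cast hij)
      have hp : (0 : ℝ) ≤ (cc i : ℝ) * (cc j : ℝ) := by positivity
      nlinarith [mul_le_mul_of_nonneg_right hm hp]
    exact_mod_cast h1
  have main : ∀ i : ℕ, 2 ≤ i → ∀ j : ℕ, i ≤ j → cc i * cc j ≤ cc 2 * cc (i + j - 2) := by
    intro i hi
    induction i, hi using Nat.le_induction with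
    | base =>
      intro j _
      rw [Nat.add_sub_cancel_left]
    | succ i hi ih =>
      intro j hij
      refine (step i j (by omega)).trans ?_
      have := ih (j + 1) (by omega)
      rwa [show i + 1 + j - 2 = i + (j + 1) - 2 by omega]
  have h28 : cc 2 = 28 := by decide
  intro i j hi hj
  rw [← h28]
  rcases le_total i j with hij | hij
  · exact main i hi j hij
  · have := main j hj i hij
    rw [mul_comm, Nat.add_comm i j]
    exact this

end Pool.Agent.helper37.NF
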