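import Pool.Agent.helper4.NF.SpecB

set_option autoImplicit false

open Complex MeasureTheory

namespace Pool.Agent.NF

open Pool.Agent.helper84.DM Pool.Agent.helper78.ED Pool.Agent.DH Pool.Agent.ZD

theorem LVD_pp (N : ℕ) (a : ℕ → ℂ) (t : ℝ) :
    PP N (fun n => if n ≤ 2 * N then a n else 0) t = DP N a t := by
  unfold PP DG DP
  have hsub : Finset.Ioc N (2 * N) ⊆ Finset.Ioc N (4 * N) := by
    intro n hn
    rw [Finset.mem_Ioc] at hn ⊢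
    omega
  rw [← Finset.sum_subset hsub]
  · refine Finset.sum_congr rfl fun n hn => ?_
    rw [Finset.mem_Ioc] at hn
    beta_reduce
    rw [if_pos hn.2]
  · intro n hn hn'
    rw [Finset.mem_Ioc] at hn hn'
    have : ¬ n ≤ 2 * N := fun h => hn' ⟨hn.1, h⟩
    beta_reduce
    rw [if_neg this, zero_mul]

theorem LVD_norm (N : ℕ) (a : ℕ → ℂ) (t : ℝ) (ha : ∀ n ∈ Finset.Ioc N (2 * N), ‖a n‖ ≤ 1) :
    ‖DP N a t‖ ≤ N := by
  unfold DP
  refine (norm_sum_le _ _).trans ?_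
  have h1 : ∀ n ∈ Finset.Ioc N (2 * N), ‖a n * (n : ℂ) ^ (-((t : ℂ) * I))‖ ≤ 1 := by
    intro n hn
    have hn' := Finset.mem_Ioc.mp hn
    have hpos : 0 < n := by omega
    have h2 : ‖(n : ℂ) ^ (-((t : ℂ) * I))‖ = 1 := by
      rw [Complex.norm_natCast_cpow_of_pos hpos]
      simp
    rw [norm_mul, h2, mul_one]
    exact ha n hn
  refine (Finset.sum_le_sum h1).trans ?_
  rw [Finset.sum_const, Nat.card_Ioc, nsmul_eq_mul, mul_one]
  have : 2 * N - N = N := by omega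
  rw [this]

theorem LVD_mono (T N V W : ℝ) (hT : 0 ≤ T) (hN : 0 ≤ N) (hV : 0 < V) (hVW : V ≤ W) :
    T ^ (3 / 4 : ℝ) * N ^ 4 / W ^ 6 + T * N ^ 4 / W ^ 7 + T ^ (1 / 2 : ℝ) * N ^ 3 / W ^ 4 ≤
    T ^ (3 / 4 : ℝ) * N ^ 4 / V ^ 6 + T * N ^ 4 / V ^ 7 + T ^ (1 / 2 : ℝ) * N ^ 3 / V ^ 4 := by
  have h1 : 0 ≤ T ^ (3 / 4 : ℝ) := Real.rpow_nonneg hT _
  have h2 : 0 ≤ T ^ (1 / 2 : ℝ) := Real.rpow_nonneg hT _
  gcongr

/-- one level -/
theorem LVD_level (h2 : LVR_stmt) (C T δ e1 E : ℝ) (hC : 0 < C) (hT : 1 ≤ T) (he1 : e1 ≤ E)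
    (heE : e1 + 6 * δ ≤ E)
    (hG : ∀ W : Finset ℝ, Sep δ T W → ∀ (NP NE NQ L : ℕ) (bP bE bQ : ℕ → ℂ)
  (UP V VQ : ℝ), 1 ≤ NP → 1 ≤ NE → 1 ≤ NQ → 1 ≤ L → T ^ (1 / 4 : ℝ) ≤ (NE : ℝ) * L →
  NQ ≤ NE * L → (NP : ℝ) * NE * L ≤ 2 * T → (∀ n ∈ Finset.Ioc NP (4 * NP), ‖bP n‖ ≤ 1) →
  (∀ n ∈ Finset.Ioc NE (4 * NE), ‖bE n‖ ≤ 1) → (∀ n ∈ Finset.Ioc NQ (4 * NQ), ‖bQ n‖ ≤ 1) →
  0 ≤ UP → 0 ≤ V → 0 ≤ VQ →
  (∀ t ∈ W, ‖PP NP bP t‖ ≤ UP ∧ V ≤ ‖PP NP bP t * PP NE bE t‖ ∧ VQ ≤ ‖PP NQ bQ t‖) →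
  (W.card : ℝ) * V ^ 2 ≤ C * T ^ e1 * (((NP : ℝ) * NE) ^ 2 * L) ∨
  VQ ^ 2 * (L * V ^ 6 * (W.card : ℝ) ^ 2) ≤ C * T ^ (e1 + 6 * δ) *
    (((NP : ℝ) * NE) ^ 2 * NE * (NE * L * T * NQ)) * (UP ^ 2 * (NP * NE * L) + NP * T +
      ((NP : ℝ) ^ 3 * UP ^ 2 * T) ^ (1 / 2 : ℝ) + UP ^ 2 * NQ * T / (NE * L)))
    (W : Finset ℝ) (hW : Sep δ T W) (N : ℕ) (a : ℕ → ℂ) (V : ℝ) (hN : 1 ≤ N)
    (hNT : (N : ℝ) ≤ T ^ (1 / 2 : ℝ)) (hNV : (N : ℝ) ^ (1 / 2 : ℝ) ≤ V)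
    (ha : ∀ n ∈ Finset.Ioc N (2 * N), ‖a n‖ ≤ 1)
    (hlo : ∀ t ∈ W, V ≤ ‖DP N a t‖) (hhi : ∀ t ∈ W, ‖DP N a t‖ ≤ 2 * V) :
    (W.card : ℝ) ≤ 14 * max 1 (C * T ^ E) * (T ^ (3 / 4 : ℝ) * (N : ℝ) ^ 4 / V ^ 6 +
      T * (N : ℝ) ^ 4 / V ^ 7 + T ^ (1 / 2 : ℝ) * (N : ℝ) ^ 3 / V ^ 4) := by
  have hN1 : (1 : ℝ) ≤ N := by exact_mod_cast hN
  have hT0 : 0 < T := by linarith
  have hV1 : 1 ≤ V := le_trans (Real.one_le_rpow hN1 (by norm_num)) hNV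
  have hV0 : 0 < V := by linarith
  set x : ℝ := T ^ (1 / 2 : ℝ) / N with hx
  have hx1 : 1 ≤ x := by
    rw [hx, le_div_iff₀ (by linarith)]
    linarith
  set L : ℕ := ⌈x⌉₊ with hL
  have hL1 : 1 ≤ L := by
    rw [hL]
    exact Nat.one_le_ceil_iff.mpr (by linarith)
  have hLx : x ≤ L := Nat.le_ceil x
  have hLx2 : (L : ℝ) ≤ 2 * x := by
    have := Nat.ceil_lt_add_one (a := x) (by linarith)
    have h3 : (L : ℝ) < x + 1 := this
    linarith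
  have hNx : (N : ℝ) * x = T ^ (1 / 2 : ℝ) := by
    rw [hx]
    field_simp
  have hTT : T ^ (1 / 2 : ℝ) * T ^ (1 / 2 : ℝ) = T := by
    rw [← Real.rpow_add hT0]
    norm_num
  have hThalf : 0 ≤ T ^ (1 / 2 : ℝ) := Real.rpow_nonneg hT0.le _
  set b : ℕ → ℂ := fun n => if n ≤ 2 * N then a n else 0 with hb
  have hbn : ∀ n ∈ Finset.Ioc N (4 * N), ‖b n‖ ≤ 1 := by
    intro n hn
    rw [Finset.mem_Ioc] at hn
    simp only [hb]
    by_cases h : n ≤ 2 * N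
    · rw [if_pos h]
      exact ha n (Finset.mem_Ioc.mpr ⟨hn.1, h⟩)
    · rw [if_neg h, norm_zero]
      exact zero_le_one
  have hPP : ∀ t, PP N b t = DP N a t := fun t => LVD_pp N a t
  have hNL : T ^ (1 / 4 : ℝ) ≤ (N : ℝ) * L := by
    calc T ^ (1 / 4 : ℝ) ≤ T ^ (1 / 2 : ℝ) := Real.rpow_le_rpow_of_exponent_le hT (by norm_num)
      _ = N * x := hNx.symm
      _ ≤ N * L := by gcongr
  have hNNL : (N : ℝ) * N * L ≤ 2 * T := by
    calc (N : ℝ) * N * L ≤ N * N * (2 * x) := by gcongr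
      _ = 2 * N * (N * x) := by ring
      _ = 2 * N * T ^ (1 / 2 : ℝ) := by rw [hNx]
      _ ≤ 2 * T ^ (1 / 2 : ℝ) * T ^ (1 / 2 : ℝ) := by gcongr
      _ = 2 * T := by rw [mul_assoc, hTT]
  have key := hG W hW N N N L b b b (2 * V) (V ^ 2) V hN hN hN hL1 hNL
    (Nat.le_mul_of_pos_right N hL1) hNNL hbn hbn hbn (by positivity) (by positivity) hV0.le
    (by
      intro t ht
      rw [hPP]
      have h5 := hlo t ht
      refine ⟨hhi t ht, ?_, h5⟩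
      rw [norm_mul, pow_two]
      exact mul_le_mul h5 h5 hV0.le (norm_nonneg _))
  refine h2 (W.card) V (max 1 (C * T ^ E)) N L T (Nat.cast_nonneg _) (le_max_left _ _) hN1 hT hNV
    hLx hLx2 ?_
  have hK1 : C * T ^ e1 ≤ max 1 (C * T ^ E) := by
    refine le_trans ?_ (le_max_right _ _)
    gcongr
  have hK2 : C * T ^ (e1 + 6 * δ) ≤ max 1 (C * T ^ E) := by
    refine le_trans ?_ (le_max_right _ _)
    gcongr
  rcases key with h | h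
  · left
    refine h.trans ?_
    gcongr
  · right
    refine h.trans ?_
    gcongr

theorem LVD (h1 : GLV_stmt) (h2 : LVR_stmt) : LVD_stmt := by
  intro ε hε
  refine ⟨min (ε / 24) (1 / 10), lt_min (by linarith) (by norm_num), ?_⟩
  intro δ hδ hδ0
  have hδ1 : δ ≤ ε / 24 := hδ0.trans (min_le_left _ _)
  have hδ2 : δ ≤ 1 / 10 := hδ0.trans (min_le_right _ _)
  obtain ⟨C, T₀, hC, hG⟩ := h1 (ε / 4) δ (by linarith) hδ hδ2
  refine ⟨14 * max 1 C * (8 / ε + 1), max T₀ 1, ?_, ?_⟩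
  · have : 0 < max 1 C := lt_max_of_lt_left one_pos
    positivity
  intro T hT W hW N a V hN hNT hNV ha hlo
  have hT1 : 1 ≤ T := le_trans (le_max_right _ _) hT
  have hTT0 : T₀ ≤ T := le_trans (le_max_left _ _) hT
  have hT0 : 0 < T := by linarith
  have hN1 : (1 : ℝ) ≤ N := by exact_mod_cast hN
  have hV1 : 1 ≤ V := le_trans (Real.one_le_rpow hN1 (by norm_num)) hNV
  have hV0 : 0 < V := by linarith
  set B : ℝ := T ^ (3 / 4 : ℝ) * (N : ℝ) ^ 4 / V ^ 6 +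
      T * (N : ℝ) ^ 4 / V ^ 7 + T ^ (1 / 2 : ℝ) * (N : ℝ) ^ 3 / V ^ 4 with hB
  have hB0 : 0 ≤ B := by
    have h3 : 0 ≤ T ^ (3 / 4 : ℝ) := Real.rpow_nonneg hT0.le _
    have h4 : 0 ≤ T ^ (1 / 2 : ℝ) := Real.rpow_nonneg hT0.le _
    positivity
  set J : ℕ := ⌊2 * Real.log T⌋₊ with hJ
  set Wj : ℕ → Finset ℝ := fun j => W.filter
    (fun t => 2 ^ j * V ≤ ‖DP N a t‖ ∧ ‖DP N a t‖ ≤ 2 * (2 ^ j * V)) with hWj
  have hcover : W ⊆ (Finset.range (J + 1)).biUnion Wj := by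
    intro t ht
    have h3 := hlo t ht
    have h4 : 1 ≤ ‖DP N a t‖ / V := by rwa [one_le_div₀ hV0]
    obtain ⟨j, hj1, hj2⟩ := exists_nat_pow_near h4 (one_lt_two (α := ℝ))
    rw [le_div_iff₀ hV0] at hj1
    rw [div_lt_iff₀ hV0] at hj2
    rw [Finset.mem_biUnion]
    refine ⟨j, ?_, ?_⟩
    · rw [Finset.mem_range]
      have h5 : (2 : ℝ) ^ j ≤ T := by
        calc (2 : ℝ) ^ j ≤ 2 ^ j * V := le_mul_of_one_le_right (by positivity) hV1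
          _ ≤ ‖DP N a t‖ := hj1
          _ ≤ N := LVD_norm N a t ha
          _ ≤ T ^ (1 / 2 : ℝ) := hNT
          _ ≤ T ^ (1 : ℝ) := Real.rpow_le_rpow_of_exponent_le hT1 (by norm_num)
          _ = T := Real.rpow_one T
      have h6 : (j : ℝ) * Real.log 2 ≤ Real.log T := by
        rw [← Real.log_pow]
        exact Real.log_le_log (by positivity) h5
      have h7 : (1 / 2 : ℝ) ≤ Real.log 2 := by
        have := Real.log_two_gt_d9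
        linarith
      have h8 : (j : ℝ) ≤ 2 * Real.log T := by
        have h9 : (j : ℝ) * (1 / 2) ≤ j * Real.log 2 := by gcongr
        linarith
      have : j ≤ J := Nat.le_floor h8
      omega
    · simp only [hWj, Finset.mem_filter]
      refine ⟨ht, hj1, ?_⟩
      rw [pow_succ] at hj2
      linarith
  have hlevel : ∀ j, ((Wj j).card : ℝ) ≤ 14 * max 1 (C * T ^ (ε / 2)) * B := by
    intro j
    have h2j : (1 : ℝ) ≤ 2 ^ j := one_le_pow₀ (by norm_num)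
    have hVj : V ≤ 2 ^ j * V := le_mul_of_one_le_left hV0.le h2j
    have hsep : Sep δ T (Wj j) := by
      refine ⟨fun t ht => hW.1 t (Finset.mem_filter.mp ht).1, fun t ht t' ht' hne => ?_⟩
      exact hW.2 t (Finset.mem_filter.mp ht).1 t' (Finset.mem_filter.mp ht').1 hne
    have h3 := LVD_level h2 C T δ (ε / 4) (ε / 2) hC hT1 (by linarith) (by linarith) (hG T hTT0)
      (Wj j) hsep N a (2 ^ j * V) hN hNT (hNV.trans hVj) ha
      (fun t ht => (Finset.mem_filter.mp ht).2.1) (fun t ht => (Finset.mem_filter.mp ht).2.2)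
    refine h3.trans ?_
    have h4 := LVD_mono T N V (2 ^ j * V) hT0.le (by linarith) hV0 hVj
    have h5 : 0 ≤ max 1 (C * T ^ (ε / 2)) := le_trans zero_le_one (le_max_left _ _)
    exact mul_le_mul_of_nonneg_left h4 (by positivity)
  have hcard : (W.card : ℝ) ≤ (J + 1) * (14 * max 1 (C * T ^ (ε / 2)) * B) := by
    have h3 : W.card ≤ ∑ j ∈ Finset.range (J + 1), (Wj j).card :=
      (Finset.card_le_card hcover).trans Finset.card_biUnion_le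
    calc (W.card : ℝ) ≤ ((∑ j ∈ Finset.range (J + 1), (Wj j).card : ℕ) : ℝ) := by exact_mod_cast h3
      _ = ∑ j ∈ Finset.range (J + 1), ((Wj j).card : ℝ) := by push_cast; rfl
      _ ≤ ∑ _j ∈ Finset.range (J + 1), 14 * max 1 (C * T ^ (ε / 2)) * B :=
          Finset.sum_le_sum fun j _ => hlevel j
      _ = (J + 1) * (14 * max 1 (C * T ^ (ε / 2)) * B) := by
          rw [Finset.sum_const, Finset.card_range, nsmul_eq_mul]
          push_cast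
          ring
  have hlog0 : 0 ≤ Real.log T := Real.log_nonneg hT1
  have hTe4 : 1 ≤ T ^ (ε / 4) := Real.one_le_rpow hT1 (by linarith)
  have hTe2 : 1 ≤ T ^ (ε / 2) := Real.one_le_rpow hT1 (by linarith)
  have hJ1 : (J : ℝ) + 1 ≤ (8 / ε + 1) * T ^ (ε / 4) := by
    have h3 : (J : ℝ) ≤ 2 * Real.log T := Nat.floor_le (by linarith)
    have h4 : Real.log T ≤ T ^ (ε / 4) / (ε / 4) := Real.log_le_rpow_div hT0.le (by linarith)
    have h5 : 2 * (T ^ (ε / 4) / (ε / 4)) = 8 / ε * T ^ (ε / 4) := by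
      field_simp
      ring
    linarith
  have hmax : max 1 (C * T ^ (ε / 2)) ≤ max 1 C * T ^ (ε / 2) := by
    refine max_le ?_ ?_
    · exact one_le_mul_of_one_le_of_one_le (le_max_left _ _) hTe2
    · gcongr
      exact le_max_right _ _
  have hmaxC : 0 ≤ max 1 C := le_trans zero_le_one (le_max_left _ _)
  have hTee : T ^ (ε / 4) * T ^ (ε / 2) ≤ T ^ ε := by
    rw [← Real.rpow_add hT0]
    exact Real.rpow_le_rpow_of_exponent_le hT1 (by linarith)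
  calc (W.card : ℝ) ≤ (J + 1) * (14 * max 1 (C * T ^ (ε / 2)) * B) := hcard
    _ ≤ ((8 / ε + 1) * T ^ (ε / 4)) * (14 * (max 1 C * T ^ (ε / 2)) * B) := by gcongr
    _ = 14 * max 1 C * (8 / ε + 1) * (T ^ (ε / 4) * T ^ (ε / 2)) * B := by ring
    _ ≤ 14 * max 1 C * (8 / ε + 1) * T ^ ε * B := by gcongr

end Pool.Agent.NF
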